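import Mathlib

/-!
# Cylinders and the covering constant `c(d, k)` for ellipsoids
-/

open MeasureTheory Metric Set Module
open scoped ENNReal

namespace Pool.Agent.R357.CYL

/-- A `k`-codimensional cylinder of the inner product space `V`: a linear subspace `H` of dimension
`k` and a measurable subset `B` of its orthogonal complement; the cylinder is `H + B`. -/
structure Cylinder (V : Type*) [NormedAddCommGroup V] [InnerProductSpace ℝ V]
    [MeasurableSpace V] (k : ℕ) where
  /-- the direction -/
  H : Submodule ℝ V
  finrank_eq : finrank ℝ H = k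
  /-- the base -/
  B : Set Hᗮ
  measurable : MeasurableSet B

section
variable {V : Type*} [NormedAddCommGroup V] [InnerProductSpace ℝ V]
  [MeasurableSpace V] [BorelSpace V] [FiniteDimensional ℝ V] {k : ℕ}

/-- The point set `H + B` of a cylinder. -/
def Cylinder.carrier (C : Cylinder V k) : Set V :=
  {x | ∃ h ∈ C.H, ∃ b ∈ C.B, x = h + (b : V)}

/-- The cross-sectional volume of the cylinder `H + B` relative to `K`: the volume of the base `B`
divided by the volume of the orthogonal projection of `K` to `Hᗮ`. -/
noncomputable def Cylinder.crv (C : Cylinder V k) (K : Set V) : ℝ≥0∞ :=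
  volume C.B / volume ((C.Hᗮ).orthogonalProjectionOnto '' K)

end

/-- Ellipsoids: the images of the closed unit ball under the invertible affine maps. -/
def IsEllipsoid {d : ℕ} (K : Set (EuclideanSpace ℝ (Fin d))) : Prop :=
  ∃ f : EuclideanSpace ℝ (Fin d) ≃ᵃ[ℝ] EuclideanSpace ℝ (Fin d), K = f '' closedBall 0 1

/-- The real number `c` has the property in the definition of `c(d, k)`: whenever finitely many
`k`-codimensional cylinders cover an ellipsoid of `𝔼^d`, their total cross-sectional volume is at
least `c`. -/
def IsLower (d k : ℕ) (c : ℝ) : Prop :=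
  ∀ K : Set (EuclideanSpace ℝ (Fin d)), IsEllipsoid K →
    ∀ (N : ℕ) (C : Fin N → Cylinder (EuclideanSpace ℝ (Fin d)) k),
      K ⊆ ⋃ i, (C i).carrier → ENNReal.ofReal c ≤ ∑ i, (C i).crv K

end Pool.Agent.R357.CYL
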