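import Pool.Agent.R357.CYL.Upper

open MeasureTheory Metric Set Module
open scoped ENNReal Pointwise

namespace Pool.Agent.R357.CYL

section
variable {V : Type*} [NormedAddCommGroup V] [InnerProductSpace ℝ V]
  [MeasurableSpace V] [BorelSpace V] [FiniteDimensional ℝ V] {k d : ℕ}

/-- the volume of the ellipsoid `‖y‖ ^ 2 + ‖π_X y‖ ^ 2 ≤ 1` -/
lemma vol_ell (X : Submodule ℝ V) {q : ℕ} (hX : finrank ℝ X = q) :
    volume {y : V | ‖y‖ ^ 2 + ‖(X.orthogonalProjectionOnto y : X)‖ ^ 2 ≤ 1} =
      ENNReal.ofReal ((1 / √2) ^ q) * volume (closedBall (0 : V) 1) := by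
  have hmp : MeasurePreserving (fun x : V => (WithLp.ofLp (X.orthogonalDecomposition x) : X × Xᗮ))
      volume volume :=
    (WithLp.volume_preserving_ofLp X Xᗮ).comp X.orthogonalDecomposition.measurePreserving
  have hn : ∀ x : V, ‖x‖ ^ 2 = ‖(X.orthogonalProjectionOnto x : X)‖ ^ 2 +
      ‖(Xᗮ.orthogonalProjectionOnto x : Xᗮ)‖ ^ 2 := by
    intro x
    have h1 := X.orthogonalDecomposition.norm_map x
    rw [← h1, WithLp.prod_norm_sq_eq_of_L2]
    simp
  set T : Set (X × Xᗮ) := {p | 2 * ‖p.1‖ ^ 2 + ‖p.2‖ ^ 2 ≤ 1} with hT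
  set T' : Set (X × Xᗮ) := {p | ‖p.1‖ ^ 2 + ‖p.2‖ ^ 2 ≤ 1} with hT'
  have hTm : MeasurableSet T := by
    have h1 : Measurable (fun p : X × Xᗮ => 2 * ‖p.1‖ ^ 2 + ‖p.2‖ ^ 2) := by fun_prop
    exact measurableSet_le h1 measurable_const
  have hTm' : MeasurableSet T' := by
    have h1 : Measurable (fun p : X × Xᗮ => ‖p.1‖ ^ 2 + ‖p.2‖ ^ 2) := by fun_prop
    exact measurableSet_le h1 measurable_const
  have e1 : {y : V | ‖y‖ ^ 2 + ‖(X.orthogonalProjectionOnto y : X)‖ ^ 2 ≤ 1} =
      (fun x : V => (WithLp.ofLp (X.orthogonalDecomposition x) : X × Xᗮ)) ⁻¹' T := by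
    ext x
    rw [mem_preimage]
    simp only [hT, Submodule.orthogonalDecomposition_apply, mem_ofPred_eq]
    rw [hn x]
    constructor <;> intro h <;> linarith
  have e2 : closedBall (0 : V) 1 =
      (fun x : V => (WithLp.ofLp (X.orthogonalDecomposition x) : X × Xᗮ)) ⁻¹' T' := by
    ext x
    rw [mem_preimage, mem_closedBall_zero_iff]
    simp only [hT', Submodule.orthogonalDecomposition_apply, mem_ofPred_eq]
    rw [← hn x]
    exact (sq_le_one_iff₀ (norm_nonneg x)).symm
  rw [e1, e2, hmp.measure_preimage hTm.nullMeasurableSet,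
    hmp.measure_preimage hTm'.nullMeasurableSet, Measure.volume_eq_prod,
    Measure.prod_apply_symm hTm, Measure.prod_apply_symm hTm']
  have hm : Measurable (fun u : Xᗮ => volume ((fun b : X => (b, u)) ⁻¹' T')) :=
    measurable_measure_prodMk_right hTm'
  rw [← lintegral_const_mul _ hm]
  refine lintegral_congr fun u => ?_
  have hs2 : (0 : ℝ) < √2 := Real.sqrt_pos.2 (by norm_num)
  have e3 : (fun b : X => (b, u)) ⁻¹' T = (1 / √2 : ℝ) • ((fun b : X => (b, u)) ⁻¹' T') := by
    ext b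
    rw [Set.mem_smul_set_iff_inv_smul_mem₀ (by positivity)]
    simp only [hT, hT', mem_preimage, mem_ofPred_eq]
    rw [norm_smul, mul_pow]
    have : ‖(1 / √2 : ℝ)⁻¹‖ ^ 2 = 2 := by
      rw [one_div, inv_inv, Real.norm_eq_abs, sq_abs, Real.sq_sqrt (by norm_num)]
    rw [this]
  rw [e3, Measure.addHaar_smul, hX, abs_of_nonneg (by positivity)]

/-- coverings by two tubes -/
lemma cover_tubes (hV : finrank ℝ V = d) (hkd : k < d) (hmk : 2 * (d - k) ≤ d) :
    ∃ C : Fin 2 → Cylinder V k, closedBall (0 : V) 1 ⊆ ⋃ i, (C i).carrier ∧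
      ∑ i, (C i).crv (closedBall 0 1) ≤ ENNReal.ofReal (2 * (1 / √2) ^ (d - k)) := by
  obtain ⟨X, hX⟩ := exists_sub (V := V) (n := d - k) (by omega)
  have hXo : finrank ℝ (Xᗮ : Submodule ℝ V) = k := by
    have := X.finrank_add_finrank_orthogonal
    omega
  obtain ⟨Y, hY⟩ := exists_sub (V := (Xᗮ : Submodule ℝ V)) (n := d - k) (by omega)
  set Z : Submodule ℝ V := Y.map (Xᗮ).subtype with hZ
  have hZf : finrank ℝ Z = d - k := by
    rw [hZ, Submodule.finrank_map_subtype_eq, hY]
  have hZo : finrank ℝ (Zᗮ : Submodule ℝ V) = k := by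
    have := Z.finrank_add_finrank_orthogonal
    omega
  have hZX : Z ≤ Xᗮ := by
    rw [hZ]
    exact Submodule.map_subtype_le _ _
  have hs2 : (0 : ℝ) < √2 := Real.sqrt_pos.2 (by norm_num)
  refine ⟨![tube Xᗮ hXo (1 / √2), tube Zᗮ hZo (1 / √2)], ?_, ?_⟩
  · intro x hx
    rw [mem_closedBall_zero_iff] at hx
    have key : ‖(Xᗮᗮ).orthogonalProjectionOnto x‖ ^ 2 + ‖(Zᗮᗮ).orthogonalProjectionOnto x‖ ^ 2 ≤ 1 := by
      have h1 : ‖x‖ ^ 2 = ‖X.orthogonalProjectionOnto x‖ ^ 2 + ‖(Xᗮ).orthogonalProjectionOnto x‖ ^ 2 :=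
        X.norm_sq_eq_add_norm_sq_projection x
      have h2 : ‖(Xᗮᗮ).orthogonalProjectionOnto x‖ = ‖X.orthogonalProjectionOnto x‖ := by
        have : ((Xᗮᗮ).orthogonalProjectionOnto x : V) = (X.orthogonalProjectionOnto x : V) := by
          change (Xᗮᗮ).starProjection x = X.starProjection x
          simp only [Submodule.orthogonal_orthogonal]
        rw [← Submodule.norm_coe, this, Submodule.norm_coe]
      have h3 : ‖(Zᗮᗮ).orthogonalProjectionOnto x‖ ≤ ‖(Xᗮ).orthogonalProjectionOnto x‖ := by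
        have h4 : ((Zᗮᗮ).orthogonalProjectionOnto x : V) = Z.starProjection ((Xᗮ).starProjection x) := by
          change (Zᗮᗮ).starProjection x = _
          simp only [Submodule.orthogonal_orthogonal]
          have h5 : x = X.starProjection x + (Xᗮ).starProjection x :=
            (X.starProjection_add_starProjection_orthogonal x).symm
          have h6 : Z.starProjection (X.starProjection x) = 0 := by
            rw [Submodule.starProjection_apply_eq_zero_iff]
            intro z hz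
            have h7 : X.starProjection x ∈ X := Submodule.starProjection_apply_mem _ _
            have h8 := hZX hz
            rw [real_inner_comm]
            exact h8 _ h7
          conv_lhs => rw [h5]
          rw [map_add, h6, zero_add]
        rw [← Submodule.norm_coe, h4]
        refine (Submodule.norm_starProjection_apply_le _ _).trans (le_of_eq ?_)
        rw [← Submodule.norm_coe]
        rfl
      have h9 : ‖x‖ ^ 2 ≤ 1 := pow_le_one₀ (norm_nonneg x) hx
      rw [h2]
      have h10 := pow_le_pow_left₀ (norm_nonneg _) h3 2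
      linarith
    have hhalf : (1 / √2 : ℝ) ^ 2 = 1 / 2 := by
      rw [div_pow, one_pow, Real.sq_sqrt (by norm_num)]
    by_cases h : ‖(Xᗮᗮ).orthogonalProjectionOnto x‖ ≤ 1 / √2
    · exact mem_iUnion.2 ⟨0, (mem_tube _ _ _ _).2 h⟩
    · refine mem_iUnion.2 ⟨1, (mem_tube _ _ _ _).2 ?_⟩
      rw [not_le] at h
      have h1 := pow_lt_pow_left₀ h (by positivity) (two_ne_zero)
      rw [hhalf] at h1
      refine le_of_not_gt fun h2 => ?_
      have h3 := pow_lt_pow_left₀ h2 (by positivity) (two_ne_zero)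
      rw [hhalf] at h3
      linarith
  · rw [Fin.sum_univ_two]
    change (tube Xᗮ hXo (1 / √2)).crv _ + (tube Zᗮ hZo (1 / √2)).crv _ ≤ _
    rw [crv_tube hV hkd _ _ (by positivity), crv_tube hV hkd _ _ (by positivity),
      ← ENNReal.ofReal_add (by positivity) (by positivity)]
    refine ENNReal.ofReal_le_ofReal (le_of_eq (by ring))

/-- the base `{y ∈ Hᗮ : ‖y‖ ^ 2 + ‖π_Y y‖ ^ 2 ≤ 1}` -/
noncomputable def lens (H : Submodule ℝ V) (hH : finrank ℝ H = k) (Y : Submodule ℝ (Hᗮ : Submodule ℝ V)) :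
    Cylinder V k where
  H := H
  finrank_eq := hH
  B := {y | ‖y‖ ^ 2 + ‖(Y.orthogonalProjectionOnto y : Y)‖ ^ 2 ≤ 1}
  measurable := by
    have h1 : Measurable (fun y : (Hᗮ : Submodule ℝ V) =>
        ‖y‖ ^ 2 + ‖(Y.orthogonalProjectionOnto y : Y)‖ ^ 2) := by fun_prop
    exact measurableSet_le h1 measurable_const

lemma crv_lens (hV : finrank ℝ V = d) (hkd : k < d) (H : Submodule ℝ V) (hH : finrank ℝ H = k)
    (Y : Submodule ℝ (Hᗮ : Submodule ℝ V)) (hY : finrank ℝ Y = k) :
    (lens H hH Y).crv (closedBall 0 1) = ENNReal.ofReal ((1 / √2) ^ k) := by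
  have hf : finrank ℝ (Hᗮ : Submodule ℝ V) = d - k := by
    have := H.finrank_add_finrank_orthogonal
    rw [hH, hV] at this
    omega
  rw [crv_ball hV hkd]
  change volume {y : (Hᗮ : Submodule ℝ V) | ‖y‖ ^ 2 + ‖(Y.orthogonalProjectionOnto y : Y)‖ ^ 2 ≤ 1} / _ = _
  rw [vol_ell Y hY, vol_closedBall (d - k) (by omega) hf zero_le_one]
  have hw := w_pos (d - k)
  rw [one_pow, one_mul]
  exact ENNReal.mul_div_cancel_right (by simpa using hw) ENNReal.ofReal_ne_top

/-- coverings by two lenses -/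
lemma cover_lenses (hV : finrank ℝ V = d) (hkd : k < d) (hmk : 2 * k ≤ d) :
    ∃ C : Fin 2 → Cylinder V k, closedBall (0 : V) 1 ⊆ ⋃ i, (C i).carrier ∧
      ∑ i, (C i).crv (closedBall 0 1) ≤ ENNReal.ofReal (2 * (1 / √2) ^ k) := by
  obtain ⟨X, hX⟩ := exists_sub (V := V) (n := k) (by omega)
  have hXo : finrank ℝ (Xᗮ : Submodule ℝ V) = d - k := by
    have := X.finrank_add_finrank_orthogonal
    omega
  obtain ⟨Y, hY⟩ := exists_sub (V := (Xᗮ : Submodule ℝ V)) (n := k) (by omega)
  set Z : Submodule ℝ V := Y.map (Xᗮ).subtype with hZ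
  have hZf : finrank ℝ Z = k := by
    rw [hZ, Submodule.finrank_map_subtype_eq, hY]
  have hZX : Z ≤ Xᗮ := by
    rw [hZ]
    exact Submodule.map_subtype_le _ _
  have hXZ : X ≤ Zᗮ := by
    intro x hx z hz
    have h8 := hZX hz
    rw [real_inner_comm]
    exact h8 _ hx
  set Y' : Submodule ℝ (Zᗮ : Submodule ℝ V) := X.comap (Zᗮ).subtype with hY'
  have hY'f : finrank ℝ Y' = k := by
    have e : Y'.map (Zᗮ).subtype = X := by
      rw [hY', Submodule.map_comap_subtype]
      exact inf_eq_right.2 hXZ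
    rw [← Submodule.finrank_map_subtype_eq, e, hX]
  have hYZ : ∀ y : (Xᗮ : Submodule ℝ V), ‖Y.orthogonalProjectionOnto y‖ = ‖Z.orthogonalProjectionOnto (y : V)‖ := by
    intro y
    have h1 : Z.starProjection (y : V) = ((Y.starProjection y : (Xᗮ : Submodule ℝ V)) : V) := by
      refine Submodule.eq_starProjection_of_mem_orthogonal ?_ ?_
      · rw [hZ]
        exact ⟨_, Submodule.starProjection_apply_mem _ _, rfl⟩
      · rintro z ⟨z', hz', rfl⟩
        have h2 : y - Y.starProjection y ∈ Yᗮ := Submodule.sub_starProjection_mem_orthogonal y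
        exact h2 z' hz'
    have h3 : ‖Y.starProjection y‖ = ‖Z.starProjection (y : V)‖ := by
      rw [h1]
      rfl
    exact h3
  have hY'X : ∀ y : (Zᗮ : Submodule ℝ V), ‖Y'.orthogonalProjectionOnto y‖ = ‖X.orthogonalProjectionOnto (y : V)‖ := by
    intro y
    have h1 : X.starProjection (y : V) = ((Y'.starProjection y : (Zᗮ : Submodule ℝ V)) : V) := by
      refine Submodule.eq_starProjection_of_mem_orthogonal ?_ ?_
      · exact Submodule.starProjection_apply_mem Y' y
      · intro z hz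
        have h2 : y - Y'.starProjection y ∈ Y'ᗮ := Submodule.sub_starProjection_mem_orthogonal y
        exact h2 ⟨z, hXZ hz⟩ hz
    have h3 : ‖Y'.starProjection y‖ = ‖X.starProjection (y : V)‖ := by
      rw [h1]
      rfl
    exact h3
  refine ⟨![lens X hX Y, lens Z hZf Y'], ?_, ?_⟩
  · intro x hx
    rw [mem_closedBall_zero_iff] at hx
    have h9 : ‖x‖ ^ 2 ≤ 1 := pow_le_one₀ (norm_nonneg x) hx
    have n1 : ‖x‖ ^ 2 = ‖X.orthogonalProjectionOnto x‖ ^ 2 + ‖(Xᗮ).orthogonalProjectionOnto x‖ ^ 2 :=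
      X.norm_sq_eq_add_norm_sq_projection x
    have n2 : ‖x‖ ^ 2 = ‖Z.orthogonalProjectionOnto x‖ ^ 2 + ‖(Zᗮ).orthogonalProjectionOnto x‖ ^ 2 :=
      Z.norm_sq_eq_add_norm_sq_projection x
    have p1 : ‖Z.orthogonalProjectionOnto ((Xᗮ).orthogonalProjectionOnto x : V)‖ ≤
        ‖Z.orthogonalProjectionOnto x‖ := by
      have h5 : x = X.starProjection x + (Xᗮ).starProjection x :=
        (X.starProjection_add_starProjection_orthogonal x).symm
      have h6 : Z.orthogonalProjectionOnto (X.starProjection x) = 0 := by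
        rw [Submodule.orthogonalProjectionOnto_eq_zero_iff]
        exact hXZ (Submodule.starProjection_apply_mem _ _)
      have h7 : Z.orthogonalProjectionOnto x = Z.orthogonalProjectionOnto ((Xᗮ).starProjection x) := by
        conv_lhs => rw [h5]
        rw [map_add, h6, zero_add]
      rw [h7]
      exact le_rfl
    have p2 : ‖X.orthogonalProjectionOnto ((Zᗮ).orthogonalProjectionOnto x : V)‖ ≤
        ‖X.orthogonalProjectionOnto x‖ := by
      have h5 : x = Z.starProjection x + (Zᗮ).starProjection x :=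
        (Z.starProjection_add_starProjection_orthogonal x).symm
      have h6 : X.orthogonalProjectionOnto (Z.starProjection x) = 0 := by
        rw [Submodule.orthogonalProjectionOnto_eq_zero_iff]
        exact hZX (Submodule.starProjection_apply_mem _ _)
      have h7 : X.orthogonalProjectionOnto x = X.orthogonalProjectionOnto ((Zᗮ).starProjection x) := by
        conv_lhs => rw [h5]
        rw [map_add, h6, zero_add]
      rw [h7]
      exact le_rfl
    rcases le_total ‖Z.orthogonalProjectionOnto x‖ ‖X.orthogonalProjectionOnto x‖ with h | h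
    · refine mem_iUnion.2 ⟨0, (mem_carrier _ _).2 ?_⟩
      change ‖(Xᗮ).orthogonalProjectionOnto x‖ ^ 2 +
        ‖Y.orthogonalProjectionOnto ((Xᗮ).orthogonalProjectionOnto x)‖ ^ 2 ≤ 1
      rw [hYZ]
      have h10 := pow_le_pow_left₀ (norm_nonneg _) (p1.trans h) 2
      linarith
    · refine mem_iUnion.2 ⟨1, (mem_carrier _ _).2 ?_⟩
      change ‖(Zᗮ).orthogonalProjectionOnto x‖ ^ 2 +
        ‖Y'.orthogonalProjectionOnto ((Zᗮ).orthogonalProjectionOnto x)‖ ^ 2 ≤ 1
      rw [hY'X]
      have h10 := pow_le_pow_left₀ (norm_nonneg _) (p2.trans h) 2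
      linarith
  · rw [Fin.sum_univ_two]
    change (lens X hX Y).crv _ + (lens Z hZf Y').crv _ ≤ _
    rw [crv_lens hV hkd _ _ _ hY, crv_lens hV hkd _ _ _ hY'f,
      ← ENNReal.ofReal_add (by positivity) (by positivity)]
    refine ENNReal.ofReal_le_ofReal (le_of_eq (by ring))

end

/-- `c(d, k) ≤ 2 ^ (1 - min k (d - k) / 2)` -/
theorem c_le_half {d k : ℕ} (hkd : k < d) {c : ℝ} (hc : IsLower d k c) :
    c ≤ 2 * (1 / √2) ^ (min k (d - k)) := by
  have hV : finrank ℝ (EuclideanSpace ℝ (Fin d)) = d := by simp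
  rcases le_total k (d - k) with h | h
  · rw [min_eq_left h]
    obtain ⟨C, h1, h2⟩ := cover_lenses hV hkd (by omega)
    exact upper hV C h1 (by positivity) h2 hc
  · rw [min_eq_right h]
    obtain ⟨C, h1, h2⟩ := cover_tubes hV hkd (by omega)
    exact upper hV C h1 (by positivity) h2 hc

end Pool.Agent.R357.CYL
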