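import Pool.Agent.R357.CYL.Shell

open MeasureTheory Metric Set Module
open scoped ENNReal

namespace Pool.Agent.R357.CYL

section
variable {V : Type*} [NormedAddCommGroup V] [InnerProductSpace ℝ V]
  [MeasurableSpace V] [BorelSpace V] [FiniteDimensional ℝ V] {k : ℕ}

lemma mem_carrier (C : Cylinder V k) (x : V) :
    x ∈ C.carrier ↔ (C.Hᗮ).orthogonalProjectionOnto x ∈ C.B := by
  constructor
  · rintro ⟨h, hh, b, hb, rfl⟩
    rw [map_add, Submodule.orthogonalProjectionOnto_orthogonal_apply_eq_zero hh, zero_add]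
    have : (C.Hᗮ).orthogonalProjectionOnto (b : V) = b :=
      Submodule.orthogonalProjectionOnto_mem_subspace_eq_self b
    rwa [this]
  · intro h
    refine ⟨C.H.starProjection x, Submodule.starProjection_apply_mem _ _, _, h, ?_⟩
    have := C.H.starProjection_add_starProjection_orthogonal x
    exact this.symm

lemma image_proj_ball (H : Submodule ℝ V) :
    (Hᗮ).orthogonalProjectionOnto '' closedBall (0 : V) 1 = closedBall (0 : Hᗮ) 1 := by
  ext y
  constructor
  · rintro ⟨x, hx, rfl⟩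
    rw [mem_closedBall_zero_iff] at hx ⊢
    exact ((Hᗮ).norm_orthogonalProjectionOnto_apply_le x).trans hx
  · intro hy
    refine ⟨(y : V), ?_, Submodule.orthogonalProjectionOnto_mem_subspace_eq_self y⟩
    rw [mem_closedBall_zero_iff] at hy ⊢
    exact hy

/-- the volume of the unit ball in dimension `n` -/
noncomputable def w (n : ℕ) : ℝ := √Real.pi ^ n / Real.Gamma (n / 2 + 1)

lemma w_pos (n : ℕ) : 0 < w n := by
  unfold w
  have : 0 < Real.Gamma ((n : ℝ) / 2 + 1) := Real.Gamma_pos_of_pos (by positivity)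
  positivity

lemma vol_ball (n : ℕ) (hn : 1 ≤ n) (hV : finrank ℝ V = n) :
    volume (ball (0 : V) 1) = ENNReal.ofReal (w n) := by
  haveI : Nontrivial V := Module.nontrivial_of_finrank_pos (R := ℝ) (by omega)
  rw [InnerProductSpace.volume_ball, hV]
  simp [w]

lemma vol_closedBall (n : ℕ) (hn : 1 ≤ n) (hV : finrank ℝ V = n) {r : ℝ} (hr : 0 ≤ r) :
    volume (closedBall (0 : V) r) = ENNReal.ofReal (r ^ n * w n) := by
  rw [Measure.addHaar_closedBall _ _ hr, vol_ball n hn hV, hV, ENNReal.ofReal_mul (by positivity)]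

lemma crv_ball {d : ℕ} (hV : finrank ℝ V = d) (hkd : k < d) (C : Cylinder V k) :
    C.crv (closedBall 0 1) = volume C.B / ENNReal.ofReal (w (d - k)) := by
  have hf : finrank ℝ (C.Hᗮ : Submodule ℝ V) = d - k := by
    have := C.H.finrank_add_finrank_orthogonal
    rw [C.finrank_eq, hV] at this
    omega
  rw [Cylinder.crv, image_proj_ball, vol_closedBall (d - k) (by omega) hf zero_le_one]
  simp

/-- the main inequality for the unit ball -/
lemma ball_bound_aux {d : ℕ} (hV : finrank ℝ V = d) (hk : 2 ≤ k) (hkd : k < d) {N : ℕ}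
    (C : Fin N → Cylinder V k) (hcov : closedBall (0 : V) 1 ⊆ ⋃ i, (C i).carrier)
    {a : ℝ} (ha : 0 < a) (ha1 : a < 1) :
    ENNReal.ofReal ((1 - a ^ d) * w d) ≤
      ENNReal.ofReal ((1 - a ^ k) * (w k * w (d - k))) * ∑ i, (C i).crv (closedBall 0 1) := by
  have h1 : volume (closedBall (0 : V) 1 \ closedBall 0 a) = ENNReal.ofReal ((1 - a ^ d) * w d) := by
    rw [measure_sdiff (closedBall_subset_closedBall ha1.le)
      isClosed_closedBall.measurableSet.nullMeasurableSet (measure_closedBall_lt_top).ne,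
      vol_closedBall d (by omega) hV zero_le_one, vol_closedBall d (by omega) hV ha.le,
      ← ENNReal.ofReal_sub _ (by have := w_pos d; positivity)]
    congr 1
    ring
  have h2 : closedBall (0 : V) 1 \ closedBall 0 a ⊆
      ⋃ i, {x : V | a < ‖x‖ ∧ ‖x‖ ≤ 1 ∧ ((C i).Hᗮ).orthogonalProjectionOnto x ∈ (C i).B} := by
    rintro x ⟨hx1, hx2⟩
    obtain ⟨i, hi⟩ := mem_iUnion.1 (hcov hx1)
    refine mem_iUnion.2 ⟨i, ?_, ?_, (mem_carrier _ _).1 hi⟩
    · rw [mem_closedBall_zero_iff, not_le] at hx2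
      exact hx2
    · rw [mem_closedBall_zero_iff] at hx1
      exact hx1
  rw [← h1, Finset.mul_sum]
  refine (measure_mono h2).trans ((measure_iUnion_le _).trans ?_)
  rw [tsum_fintype]
  refine Finset.sum_le_sum fun i _ => ?_
  refine (shell_le (C i).H hk (C i).finrank_eq (C i).measurable ha.le ha1.le).trans ?_
  rw [crv_ball hV hkd, vol_ball k (by omega) (C i).finrank_eq]
  have hw := w_pos (d - k)
  have hwk := w_pos k
  have hak : 0 ≤ 1 - a ^ k := by
    have : a ^ k ≤ 1 := pow_le_one₀ ha.le ha1.le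
    linarith
  have e1 : ENNReal.ofReal ((1 - a ^ k) * (w k * w (d - k))) =
      ENNReal.ofReal (1 - a ^ k) * ENNReal.ofReal (w k) * ENNReal.ofReal (w (d - k)) := by
    rw [← mul_assoc, ENNReal.ofReal_mul (by positivity), ENNReal.ofReal_mul hak]
  rw [e1]
  calc ENNReal.ofReal (1 - a ^ k) * ENNReal.ofReal (w k) * volume ((C i).B ∩ closedBall 0 1)
      ≤ ENNReal.ofReal (1 - a ^ k) * ENNReal.ofReal (w k) * volume (C i).B := by
        gcongr
        exact inter_subset_left
    _ = ENNReal.ofReal (1 - a ^ k) * ENNReal.ofReal (w k) *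
        (ENNReal.ofReal (w (d - k)) * (volume (C i).B / ENNReal.ofReal (w (d - k)))) := by
        rw [ENNReal.mul_div_cancel (by simpa using hw) ENNReal.ofReal_ne_top]
    _ = _ := by ring

/-- the constant -/
lemma const_eq {d k : ℕ} (hk : 2 ≤ k) (hkd : k < d) :
    (d * w d) / (k * (w k * w (d - k))) =
      Real.Gamma (((d - k : ℕ) : ℝ) / 2 + 1) * Real.Gamma ((k : ℝ) / 2) / Real.Gamma ((d : ℝ) / 2) := by
  have hd0 : (0 : ℝ) < d := by exact_mod_cast (by omega : 0 < d)
  have hk0 : (0 : ℝ) < k := by exact_mod_cast (by omega : 0 < k)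
  have g1 : Real.Gamma ((d : ℝ) / 2 + 1) = (d : ℝ) / 2 * Real.Gamma ((d : ℝ) / 2) :=
    Real.Gamma_add_one (by positivity)
  have g2 : Real.Gamma ((k : ℝ) / 2 + 1) = (k : ℝ) / 2 * Real.Gamma ((k : ℝ) / 2) :=
    Real.Gamma_add_one (by positivity)
  have p1 : 0 < Real.Gamma ((d : ℝ) / 2) := Real.Gamma_pos_of_pos (by positivity)
  have p2 : 0 < Real.Gamma ((k : ℝ) / 2) := Real.Gamma_pos_of_pos (by positivity)
  have p3 : 0 < Real.Gamma (((d - k : ℕ) : ℝ) / 2 + 1) := Real.Gamma_pos_of_pos (by positivity)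
  have hpi : √Real.pi ^ d = √Real.pi ^ k * √Real.pi ^ (d - k) := by
    rw [← pow_add]
    congr 1
    omega
  have hs : 0 < √Real.pi := Real.sqrt_pos.2 Real.pi_pos
  unfold w
  rw [g1, g2, hpi]
  field_simp

/-- total cross-sectional volume of coverings of the unit ball -/
lemma ball_bound {d : ℕ} (hV : finrank ℝ V = d) (hk : 2 ≤ k) (hkd : k < d) {N : ℕ}
    (C : Fin N → Cylinder V k) (hcov : closedBall (0 : V) 1 ⊆ ⋃ i, (C i).carrier) :
    ENNReal.ofReal (Real.Gamma (((d - k : ℕ) : ℝ) / 2 + 1) * Real.Gamma ((k : ℝ) / 2) /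
      Real.Gamma ((d : ℝ) / 2)) ≤ ∑ i, (C i).crv (closedBall 0 1) := by
  rw [← const_eq hk hkd]
  set X := ∑ i, (C i).crv (closedBall 0 1) with hX
  rcases eq_or_ne X ⊤ with htop | htop
  · rw [htop]; exact le_top
  have hx : X = ENNReal.ofReal X.toReal := (ENNReal.ofReal_toReal htop).symm
  set x := X.toReal with hxdef
  have hx0 : 0 ≤ x := ENNReal.toReal_nonneg
  have hwd := w_pos d
  have hwk := w_pos k
  have hwm := w_pos (d - k)
  have key : ∀ a ∈ Ioo (0 : ℝ) 1, (∑ j ∈ Finset.range d, a ^ j) * w d ≤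
      (∑ j ∈ Finset.range k, a ^ j) * (w k * w (d - k)) * x := by
    intro a ha
    have h1 := ball_bound_aux hV hk hkd C hcov ha.1 ha.2
    rw [← hX, hx] at h1
    have hak : 0 ≤ 1 - a ^ k := by
      have : a ^ k ≤ 1 := pow_le_one₀ ha.1.le ha.2.le
      linarith
    rw [← ENNReal.ofReal_mul (by positivity), ENNReal.ofReal_le_ofReal_iff (by positivity)] at h1
    have e1 : ∀ n : ℕ, 1 - a ^ n = (1 - a) * ∑ j ∈ Finset.range n, a ^ j := fun n => by
      rw [mul_comm, geom_sum_mul_neg]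
    rw [e1, e1] at h1
    have h2 : 0 < 1 - a := by linarith [ha.2]
    refine le_of_mul_le_mul_left ?_ h2
    calc (1 - a) * ((∑ j ∈ Finset.range d, a ^ j) * w d)
        = (1 - a) * (∑ j ∈ Finset.range d, a ^ j) * w d := by ring
      _ ≤ _ := h1
      _ = _ := by ring
  have h1 : (1 : ℝ) ∈ closure (Ioo (0 : ℝ) 1) := by
    rw [closure_Ioo zero_ne_one]
    exact ⟨zero_le_one, le_rfl⟩
  have h2 := le_on_closure (f := fun a : ℝ => (∑ j ∈ Finset.range d, a ^ j) * w d)
    (g := fun a : ℝ => (∑ j ∈ Finset.range k, a ^ j) * (w k * w (d - k)) * x) key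
    (by fun_prop) (by fun_prop) h1
  simp only [one_pow, Finset.sum_const, Finset.card_range, nsmul_eq_mul, mul_one] at h2
  rw [hx]
  refine ENNReal.ofReal_le_ofReal ?_
  have hk0 : (0 : ℝ) < k := by exact_mod_cast (by omega : 0 < k)
  rw [div_le_iff₀ (by positivity)]
  linarith
end

end Pool.Agent.R357.CYL
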