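import Pool.Agent.R357.CYL.Lower

open MeasureTheory Metric Set Module
open scoped ENNReal

namespace Pool.Agent.R357.CYL

section
variable {V W : Type*} [NormedAddCommGroup V] [InnerProductSpace ℝ V]
  [MeasurableSpace V] [BorelSpace V] [FiniteDimensional ℝ V]
  [NormedAddCommGroup W] [InnerProductSpace ℝ W]
  [MeasurableSpace W] [BorelSpace W] [FiniteDimensional ℝ W] {k : ℕ}

/-- volumes under a linear isomorphism followed by a translation -/
lemma exists_scale (G : V ≃ₗ[ℝ] W) (c : W) :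
    ∃ κ : ℝ≥0∞, κ ≠ 0 ∧ κ ≠ ⊤ ∧ ∀ S : Set W, volume ((fun y => G y + c) ⁻¹' S) = κ * volume S := by
  set L : V ≃L[ℝ] W := G.toContinuousLinearEquiv with hL
  set μ : Measure W := Measure.map L volume with hμ
  haveI : μ.IsAddHaarMeasure := L.isAddHaarMeasure_map volume
  obtain ⟨s, hs0, hs⟩ : ∃ s : NNReal, s ≠ 0 ∧ μ = s • (volume : Measure W) :=
    ⟨Measure.addHaarScalarFactor μ volume,
      (Measure.addHaarScalarFactor_pos_of_isAddHaarMeasure _ _).ne',
      Measure.isAddLeftInvariant_eq_smul _ _⟩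
  refine ⟨(s : ℝ≥0∞), by simpa using hs0, ENNReal.coe_ne_top, fun S => ?_⟩
  have h2 : (fun y => G y + c) ⁻¹' S = L ⁻¹' ((fun z => z + c) ⁻¹' S) := by
    ext y
    simp [hL]
  have h3 : volume (L ⁻¹' ((fun z => z + c) ⁻¹' S)) = μ ((fun z => z + c) ⁻¹' S) := by
    rw [hμ]
    exact ((L.toHomeomorph.toMeasurableEquiv).map_apply _).symm
  rw [h2, h3, hs]
  rw [Measure.smul_apply, measure_preimage_add_right, ENNReal.smul_def, smul_eq_mul]

/-- the pullback of a cylinder under an affine isomorphism -/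
noncomputable def pull (g : W ≃ᵃ[ℝ] V) (C : Cylinder V k) : Cylinder W k where
  H := C.H.comap (g.linear : W →ₗ[ℝ] V)
  finrank_eq := by
    rw [Submodule.comap_equiv_eq_map_symm, LinearEquiv.finrank_map_eq, C.finrank_eq]
  B := {y | (C.Hᗮ).orthogonalProjectionOnto (g (y : W)) ∈ C.B}
  measurable := by
    have hg : Continuous g := g.toAffineMap.continuous_of_finiteDimensional
    have h1 : Continuous (fun y : ((C.H.comap (g.linear : W →ₗ[ℝ] V))ᗮ : Submodule ℝ W) =>
        (C.Hᗮ).orthogonalProjectionOnto (g (y : W))) :=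
      (ContinuousLinearMap.continuous _).comp (hg.comp continuous_subtype_val)
    exact h1.measurable C.measurable

/-- the projection commutes with `g` -/
lemma proj_g (g : W ≃ᵃ[ℝ] V) (C : Cylinder V k) (x : W) :
    (C.Hᗮ).orthogonalProjectionOnto (g (((pull g C).Hᗮ).orthogonalProjectionOnto x : W)) =
      (C.Hᗮ).orthogonalProjectionOnto (g x) := by
  have h1 : x = (pull g C).H.starProjection x +
      (((pull g C).Hᗮ).orthogonalProjectionOnto x : W) :=
    ((pull g C).H.starProjection_add_starProjection_orthogonal x).symm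
  set h := (pull g C).H.starProjection x with hh
  set y : W := (((pull g C).Hᗮ).orthogonalProjectionOnto x : W) with hy
  have hmem : h ∈ (pull g C).H := Submodule.starProjection_apply_mem _ _
  have hmem' : g.linear h ∈ C.H := hmem
  have h2 : g x = g.linear h + g y := by
    rw [h1]
    have := g.map_vadd y h
    simpa using this
  rw [h2, map_add, Submodule.orthogonalProjectionOnto_orthogonal_apply_eq_zero hmem', zero_add]

lemma mem_pull (g : W ≃ᵃ[ℝ] V) (C : Cylinder V k) (x : W) :
    x ∈ (pull g C).carrier ↔ g x ∈ C.carrier := by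
  rw [mem_carrier, mem_carrier]
  change (C.Hᗮ).orthogonalProjectionOnto (g (((pull g C).Hᗮ).orthogonalProjectionOnto x : W)) ∈ C.B ↔ _
  rw [proj_g]

/-- the linear isomorphism of the orthogonal complements -/
noncomputable def Geq (g : W ≃ᵃ[ℝ] V) (C : Cylinder V k) :
    ((pull g C).Hᗮ : Submodule ℝ W) ≃ₗ[ℝ] (C.Hᗮ : Submodule ℝ V) :=
  LinearEquiv.ofInjectiveOfFinrankEq
    (((C.Hᗮ).orthogonalProjectionOnto : V →ₗ[ℝ] (C.Hᗮ : Submodule ℝ V)) ∘ₗ
      (g.linear : W →ₗ[ℝ] V) ∘ₗ ((pull g C).Hᗮ).subtype)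
    (by
      rw [← LinearMap.ker_eq_bot, Submodule.eq_bot_iff]
      intro y hy
      rw [LinearMap.mem_ker] at hy
      have h1 : (C.Hᗮ).orthogonalProjectionOnto (g.linear (y : W)) = 0 := hy
      have h2 : g.linear (y : W) ∈ (C.Hᗮ)ᗮ :=
        Submodule.orthogonalProjectionOnto_eq_zero_iff.1 h1
      rw [Submodule.orthogonal_orthogonal] at h2
      have h3 : (y : W) ∈ (pull g C).H := h2
      have h4 : inner ℝ (y : W) (y : W) = 0 := y.2 _ h3
      have h5 : (y : W) = 0 := inner_self_eq_zero.1 h4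
      exact Subtype.ext h5)
    (by
      have h1 := (pull g C).H.finrank_add_finrank_orthogonal
      have h2 := C.H.finrank_add_finrank_orthogonal
      rw [(pull g C).finrank_eq] at h1
      rw [C.finrank_eq] at h2
      have h3 : finrank ℝ W = finrank ℝ V := LinearEquiv.finrank_eq g.linear
      omega)

lemma crv_pull (g : W ≃ᵃ[ℝ] V) (C : Cylinder V k) (K : Set W) :
    (pull g C).crv K = C.crv (g '' K) := by
  set c : (C.Hᗮ : Submodule ℝ V) := (C.Hᗮ).orthogonalProjectionOnto (g 0) with hc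
  have hq : ∀ y : ((pull g C).Hᗮ : Submodule ℝ W),
      (C.Hᗮ).orthogonalProjectionOnto (g (y : W)) = Geq g C y + c := by
    intro y
    have h1 : g (y : W) = g.linear (y : W) + g 0 := by
      have := g.map_vadd (0 : W) (y : W)
      simpa using this
    rw [h1, map_add]
    rfl
  obtain ⟨κ, hκ0, hκt, hκ⟩ := exists_scale (Geq g C) c
  have hB : volume (pull g C).B = κ * volume C.B := by
    rw [← hκ]
    congr 1
    ext y
    change (C.Hᗮ).orthogonalProjectionOnto (g (y : W)) ∈ C.B ↔ Geq g C y + c ∈ C.B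
    rw [hq]
  have hK : volume (((pull g C).Hᗮ).orthogonalProjectionOnto '' K) =
      κ * volume ((C.Hᗮ).orthogonalProjectionOnto '' (g '' K)) := by
    rw [← hκ]
    congr 1
    ext y
    constructor
    · rintro ⟨x, hx, rfl⟩
      refine ⟨g x, ⟨x, hx, rfl⟩, ?_⟩
      change _ = Geq g C _ + c
      rw [← hq, proj_g]
    · rintro ⟨_, ⟨x, hx, rfl⟩, h⟩
      refine ⟨x, hx, ?_⟩
      have h1 : Geq g C (((pull g C).Hᗮ).orthogonalProjectionOnto x) + c = Geq g C y + c := by
        rw [← hq, proj_g]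
        exact h
      exact (Geq g C).injective (add_right_cancel h1)
  rw [Cylinder.crv, Cylinder.crv, hB, hK]
  exact ENNReal.mul_div_mul_left _ _ hκ0 hκt

end

/-- the lower bound for all ellipsoids -/
theorem isLower_gamma {d k : ℕ} (hk : 2 ≤ k) (hkd : k < d) :
    IsLower d k (Real.Gamma (((d - k : ℕ) : ℝ) / 2 + 1) * Real.Gamma ((k : ℝ) / 2) /
      Real.Gamma ((d : ℝ) / 2)) := by
  rintro K ⟨f, rfl⟩ N C hcov
  have h1 := ball_bound (V := EuclideanSpace ℝ (Fin d)) (by simp) hk hkd
    (fun i => pull f (C i)) (by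
      intro x hx
      obtain ⟨i, hi⟩ := mem_iUnion.1 (hcov (mem_image_of_mem f hx))
      exact mem_iUnion.2 ⟨i, (mem_pull f (C i) x).2 hi⟩)
  refine h1.trans (le_of_eq (Finset.sum_congr rfl fun i _ => ?_))
  exact crv_pull f (C i) _

end Pool.Agent.R357.CYL
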