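import Pool.Agent.R357.CYL.Slice

open MeasureTheory Metric Set Module
open scoped ENNReal

namespace Pool.Agent.R357.CYL

variable {V : Type*} [NormedAddCommGroup V] [InnerProductSpace ℝ V]
  [MeasurableSpace V] [BorelSpace V] [FiniteDimensional ℝ V]

/-- the shell `a < ‖x‖ ≤ 1` over a measurable set of `Hᗮ` -/
lemma shell_le (H : Submodule ℝ V) {k : ℕ} (hk : 2 ≤ k) (hH : finrank ℝ H = k)
    {B : Set Hᗮ} (hB : MeasurableSet B) {a : ℝ} (ha : 0 ≤ a) (ha1 : a ≤ 1) :
    volume {x : V | a < ‖x‖ ∧ ‖x‖ ≤ 1 ∧ (Hᗮ).orthogonalProjectionOnto x ∈ B} ≤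
      ENNReal.ofReal (1 - a ^ k) * volume (ball (0 : H) 1) * volume (B ∩ closedBall 0 1) := by
  have hmp : MeasurePreserving (fun x : V => (WithLp.ofLp (H.orthogonalDecomposition x) : H × Hᗮ))
      volume volume :=
    (WithLp.volume_preserving_ofLp H Hᗮ).comp H.orthogonalDecomposition.measurePreserving
  set T : Set (H × Hᗮ) := {p | a ^ 2 < ‖p.1‖ ^ 2 + ‖p.2‖ ^ 2 ∧ ‖p.1‖ ^ 2 + ‖p.2‖ ^ 2 ≤ 1 ∧ p.2 ∈ B}
    with hT
  have hTm : MeasurableSet T := by
    have h1 : Measurable (fun p : H × Hᗮ => ‖p.1‖ ^ 2 + ‖p.2‖ ^ 2) := by fun_prop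
    exact (measurableSet_lt measurable_const h1).inter
      ((measurableSet_le h1 measurable_const).inter (measurable_snd hB))
  have hpre : {x : V | a < ‖x‖ ∧ ‖x‖ ≤ 1 ∧ (Hᗮ).orthogonalProjectionOnto x ∈ B} =
      (fun x : V => (WithLp.ofLp (H.orthogonalDecomposition x) : H × Hᗮ)) ⁻¹' T := by
    ext x
    have hn : ‖x‖ ^ 2 = ‖(H.orthogonalProjectionOnto x : H)‖ ^ 2 +
        ‖(Hᗮ.orthogonalProjectionOnto x : Hᗮ)‖ ^ 2 := by
      have h1 := H.orthogonalDecomposition.norm_map x
      rw [← h1, WithLp.prod_norm_sq_eq_of_L2]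
      simp
    simp only [mem_setOf_eq, mem_preimage, hT, Submodule.orthogonalDecomposition_apply]
    rw [← hn]
    refine and_congr ?_ (and_congr ?_ Iff.rfl)
    · constructor
      · intro h
        exact pow_lt_pow_left₀ h ha two_ne_zero
      · intro h
        exact lt_of_pow_lt_pow_left₀ 2 (norm_nonneg x) h
    · constructor
      · intro h
        exact pow_le_one₀ (norm_nonneg x) h
      · intro h
        exact (sq_le_one_iff₀ (norm_nonneg x)).1 h
  rw [hpre, hmp.measure_preimage hTm.nullMeasurableSet, Measure.volume_eq_prod,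
    Measure.prod_apply_symm hTm]
  calc ∫⁻ y, volume ((fun x => (x, y)) ⁻¹' T)
      ≤ ∫⁻ y, (B ∩ closedBall (0 : Hᗮ) 1).indicator
          (fun _ => ENNReal.ofReal (1 - a ^ k) * volume (ball (0 : H) 1)) y := by
        refine lintegral_mono fun y => ?_
        by_cases hy : y ∈ B ∩ closedBall (0 : Hᗮ) 1
        · rw [indicator_of_mem hy]
          have hy1 : ‖y‖ ≤ 1 := by simpa using hy.2
          refine (measure_mono ?_).trans (slice_le (V := H) k hk hH ha ha1 (s := ‖y‖ ^ 2)
            (by positivity) (pow_le_one₀ (norm_nonneg y) hy1))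
          rintro z ⟨h1, h2, -⟩
          exact ⟨h1, h2⟩
        · rw [indicator_of_notMem hy]
          refine le_of_eq ?_
          have : (fun x : H => (x, y)) ⁻¹' T = ∅ := by
            rw [eq_empty_iff_forall_notMem]
            rintro z ⟨-, h2, h3⟩
            refine hy ⟨h3, ?_⟩
            rw [mem_closedBall_zero_iff]
            have : ‖y‖ ^ 2 ≤ 1 := by
              have := sq_nonneg ‖z‖
              simp only at h2
              linarith
            exact (sq_le_one_iff₀ (norm_nonneg y)).1 this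
          rw [this, measure_empty]
    _ = _ := by
        rw [lintegral_indicator_const (hB.inter isClosed_closedBall.measurableSet)]

end Pool.Agent.R357.CYL
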