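import Pool.Agent.R357.CYL.Defs

open MeasureTheory Metric Set Module
open scoped ENNReal

namespace Pool.Agent.R357.CYL

/-- the increment inequality -/
lemma incr (k : ℕ) (hk : 2 ≤ k) {t u a : ℝ} (ht : 0 ≤ t) (ht1 : t ≤ 1) (hu : 0 ≤ u) (hua : u ≤ a)
    (ha1 : a ≤ 1) (h : t ^ 2 - u ^ 2 ≤ 1 - a ^ 2) : t ^ k - u ^ k ≤ 1 - a ^ k := by
  have ha : 0 ≤ a := hu.trans hua
  induction k using Nat.strong_induction_on with
  | _ k ih =>
    rcases Nat.lt_or_ge k 4 with h4 | h4
    · interval_cases k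
      · exact h
      · -- k = 3
        rcases eq_or_lt_of_le (add_nonneg ht hu) with h0 | h0
        · have h1 : t = 0 := by linarith
          have h2 : u = 0 := by linarith
          subst h1; subst h2
          have : a ^ 3 ≤ 1 := pow_le_one₀ ha ha1
          simpa using this
        · have e1 : (t ^ 2 + t * u + u ^ 2) * (1 + u) ≤ (1 + u + u ^ 2) * (t + u) := by
            nlinarith [mul_nonneg ht (sub_nonneg.2 ht1),
              mul_nonneg hu (mul_nonneg (sub_nonneg.2 ht1) (by linarith : 0 ≤ 1 + t))]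
          have e2 : (1 + u + u ^ 2) * (1 + a) ≤ (1 + a + a ^ 2) * (1 + u) := by
            nlinarith [mul_nonneg (sub_nonneg.2 hua) (by positivity : 0 ≤ a + u + a * u)]
          have e3 : (t ^ 2 + t * u + u ^ 2) * (1 + a) ≤ (1 + a + a ^ 2) * (t + u) := by
            have h5 : (t ^ 2 + t * u + u ^ 2) * (1 + a) * (1 + u) ≤
                (1 + a + a ^ 2) * (t + u) * (1 + u) := by
              calc (t ^ 2 + t * u + u ^ 2) * (1 + a) * (1 + u)
                  = ((t ^ 2 + t * u + u ^ 2) * (1 + u)) * (1 + a) := by ring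
                _ ≤ ((1 + u + u ^ 2) * (t + u)) * (1 + a) := by gcongr
                _ = ((1 + u + u ^ 2) * (1 + a)) * (t + u) := by ring
                _ ≤ ((1 + a + a ^ 2) * (1 + u)) * (t + u) := by gcongr
                _ = _ := by ring
            exact le_of_mul_le_mul_right h5 (by linarith)
          have h6 : (t ^ 3 - u ^ 3) * (t + u) ≤ (1 - a ^ 3) * (t + u) := by
            have h7 : 0 ≤ t ^ 2 + t * u + u ^ 2 := by positivity
            calc (t ^ 3 - u ^ 3) * (t + u) = (t ^ 2 - u ^ 2) * (t ^ 2 + t * u + u ^ 2) := by ring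
              _ ≤ (1 - a ^ 2) * (t ^ 2 + t * u + u ^ 2) := by gcongr
              _ = (1 - a) * ((t ^ 2 + t * u + u ^ 2) * (1 + a)) := by ring
              _ ≤ (1 - a) * ((1 + a + a ^ 2) * (t + u)) := by
                  have : 0 ≤ 1 - a := by linarith
                  gcongr
              _ = _ := by ring
          exact le_of_mul_le_mul_right h6 h0
    · obtain ⟨j, rfl⟩ : ∃ j, k = j + 2 := ⟨k - 2, by omega⟩
      have hj := ih j (by omega) (by omega)
      have h8 : t ^ 2 ≤ 1 := pow_le_one₀ ht ht1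
      have h9 : u ^ j ≤ a ^ j := pow_le_pow_left₀ hu hua j
      have h10 : 0 ≤ 1 - a ^ j := by
        have : a ^ j ≤ 1 := pow_le_one₀ ha ha1
        linarith
      have h11 : 0 ≤ 1 - a ^ 2 := by
        have : a ^ 2 ≤ 1 := pow_le_one₀ ha ha1
        linarith
      calc t ^ (j + 2) - u ^ (j + 2) = t ^ 2 * (t ^ j - u ^ j) + u ^ j * (t ^ 2 - u ^ 2) := by ring
        _ ≤ t ^ 2 * (1 - a ^ j) + u ^ j * (1 - a ^ 2) := by gcongr
        _ ≤ 1 * (1 - a ^ j) + a ^ j * (1 - a ^ 2) := by gcongr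
        _ = 1 - a ^ (j + 2) := by ring

variable {V : Type*} [NormedAddCommGroup V] [InnerProductSpace ℝ V]
  [MeasurableSpace V] [BorelSpace V] [FiniteDimensional ℝ V]

/-- the volume of an annulus-shaped slice of the shell -/
lemma slice_le (k : ℕ) (hk : 2 ≤ k) (hV : finrank ℝ V = k) {a s : ℝ} (ha : 0 ≤ a) (ha1 : a ≤ 1)
    (hs : 0 ≤ s) (hs1 : s ≤ 1) :
    volume {z : V | a ^ 2 < ‖z‖ ^ 2 + s ∧ ‖z‖ ^ 2 + s ≤ 1} ≤
      ENNReal.ofReal (1 - a ^ k) * volume (ball (0 : V) 1) := by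
  set t := √(1 - s) with ht
  set u := √(a ^ 2 - s) with hu
  have ht0 : 0 ≤ t := Real.sqrt_nonneg _
  have hu0 : 0 ≤ u := Real.sqrt_nonneg _
  have ht1 : t ≤ 1 := by
    have h0 : √(1 - s) ≤ √1 := Real.sqrt_le_sqrt (by linarith)
    rwa [Real.sqrt_one] at h0
  have hut : u ≤ t := Real.sqrt_le_sqrt (by nlinarith)
  have hua : u ≤ a := by
    rw [hu]
    calc √(a ^ 2 - s) ≤ √(a ^ 2) := Real.sqrt_le_sqrt (by linarith)
      _ = a := Real.sqrt_sq ha
  have ht2 : t ^ 2 = 1 - s := Real.sq_sqrt (by linarith)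
  have hu2 : t ^ 2 - u ^ 2 ≤ 1 - a ^ 2 := by
    rcases le_total (a ^ 2 - s) 0 with h | h
    · rw [ht2, hu, Real.sqrt_eq_zero_of_nonpos h]
      nlinarith
    · rw [ht2, hu, Real.sq_sqrt h]
      linarith
  have hinc := incr k hk ht0 ht1 hu0 hua ha1 hu2
  rcases le_or_gt (a ^ 2 - s) 0 with h | h
  · have hu3 : u = 0 := by rw [hu, Real.sqrt_eq_zero_of_nonpos h]
    have hsub : {z : V | a ^ 2 < ‖z‖ ^ 2 + s ∧ ‖z‖ ^ 2 + s ≤ 1} ⊆ closedBall (0 : V) t := by
      rintro z ⟨h1, h2⟩
      rw [mem_closedBall_zero_iff]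
      exact Real.le_sqrt_of_sq_le (by linarith)
    refine (measure_mono hsub).trans ?_
    rw [Measure.addHaar_closedBall _ _ ht0, hV]
    rw [hu3, zero_pow (by omega), sub_zero] at hinc
    gcongr
  · have hsub : {z : V | a ^ 2 < ‖z‖ ^ 2 + s ∧ ‖z‖ ^ 2 + s ≤ 1} ⊆
        closedBall (0 : V) t \ closedBall 0 u := by
      rintro z ⟨h1, h2⟩
      constructor
      · rw [mem_closedBall_zero_iff]
        exact Real.le_sqrt_of_sq_le (by linarith)
      · rw [mem_closedBall_zero_iff, not_le]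
        rw [hu, Real.sqrt_lt (by linarith) (norm_nonneg z)]
        linarith
    refine (measure_mono hsub).trans ?_
    rw [measure_sdiff (closedBall_subset_closedBall hut)
      isClosed_closedBall.measurableSet.nullMeasurableSet
      (measure_closedBall_lt_top).ne, Measure.addHaar_closedBall _ _ ht0,
      Measure.addHaar_closedBall _ _ hu0, hV]
    rw [← ENNReal.sub_mul (fun _ _ => measure_ball_lt_top.ne), ← ENNReal.ofReal_sub _ (by positivity)]
    gcongr

end Pool.Agent.R357.CYL
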