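import Pool.Agent.R357.CYL.Pull

open MeasureTheory Metric Set Module
open scoped ENNReal

namespace Pool.Agent.R357.CYL

section
variable {V : Type*} [NormedAddCommGroup V] [InnerProductSpace ℝ V]
  [MeasurableSpace V] [BorelSpace V] [FiniteDimensional ℝ V] {k d : ℕ}

/-- coverings of the unit ball of a `d`-dimensional space give upper bounds for `c(d, k)` -/
lemma upper (hV : finrank ℝ V = d) {N : ℕ} (C : Fin N → Cylinder V k)
    (hcov : closedBall (0 : V) 1 ⊆ ⋃ i, (C i).carrier) {x : ℝ} (hx : 0 ≤ x)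
    (hsum : ∑ i, (C i).crv (closedBall 0 1) ≤ ENNReal.ofReal x) {c : ℝ} (hc : IsLower d k c) :
    c ≤ x := by
  subst hV
  set φ : EuclideanSpace ℝ (Fin (finrank ℝ V)) ≃ₗᵢ[ℝ] V := (stdOrthonormalBasis ℝ V).repr.symm
  set g : EuclideanSpace ℝ (Fin (finrank ℝ V)) ≃ᵃ[ℝ] V := φ.toLinearEquiv.toAffineEquiv with hg
  have hgx : ∀ y, g y = φ y := fun y => rfl
  have himg : g '' closedBall (0 : EuclideanSpace ℝ (Fin (finrank ℝ V))) 1 = closedBall (0 : V) 1 := by
    ext y
    constructor
    · rintro ⟨z, hz, rfl⟩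
      rw [mem_closedBall_zero_iff] at hz ⊢
      rw [hgx, φ.norm_map]
      exact hz
    · intro hy
      refine ⟨φ.symm y, ?_, ?_⟩
      · rw [mem_closedBall_zero_iff] at hy ⊢
        rw [φ.symm.norm_map]
        exact hy
      · rw [hgx, φ.apply_symm_apply]
  have h1 := hc (closedBall 0 1) ⟨AffineEquiv.refl ℝ _, by simp⟩ N (fun i => pull g (C i)) (by
    intro y hy
    have h2 : g y ∈ closedBall (0 : V) 1 := by
      rw [← himg]
      exact mem_image_of_mem g hy
    obtain ⟨i, hi⟩ := mem_iUnion.1 (hcov h2)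
    exact mem_iUnion.2 ⟨i, (mem_pull g (C i) y).2 hi⟩)
  have h3 : ∑ i, (pull g (C i)).crv (closedBall 0 1) = ∑ i, (C i).crv (closedBall 0 1) := by
    refine Finset.sum_congr rfl fun i _ => ?_
    rw [crv_pull, himg]
  rw [h3] at h1
  exact (ENNReal.ofReal_le_ofReal_iff hx).1 (h1.trans hsum)

/-- the cylinder over a ball with centre `0` -/
noncomputable def tube (H : Submodule ℝ V) (hH : finrank ℝ H = k) (r : ℝ) : Cylinder V k where
  H := H
  finrank_eq := hH
  B := closedBall 0 r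
  measurable := isClosed_closedBall.measurableSet

lemma mem_tube (H : Submodule ℝ V) (hH : finrank ℝ H = k) (r : ℝ) (x : V) :
    x ∈ (tube H hH r).carrier ↔ ‖(Hᗮ).orthogonalProjectionOnto x‖ ≤ r := by
  rw [mem_carrier]
  exact mem_closedBall_zero_iff

lemma crv_tube (hV : finrank ℝ V = d) (hkd : k < d) (H : Submodule ℝ V) (hH : finrank ℝ H = k)
    {r : ℝ} (hr : 0 ≤ r) :
    (tube H hH r).crv (closedBall 0 1) = ENNReal.ofReal (r ^ (d - k)) := by
  have hf : finrank ℝ (Hᗮ : Submodule ℝ V) = d - k := by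
    have := H.finrank_add_finrank_orthogonal
    rw [hH, hV] at this
    omega
  rw [crv_ball hV hkd]
  change volume (closedBall (0 : (Hᗮ : Submodule ℝ V)) r) / _ = _
  rw [vol_closedBall (d - k) (by omega) hf hr, ENNReal.ofReal_mul (by positivity)]
  have hw := w_pos (d - k)
  exact ENNReal.mul_div_cancel_right (by simpa using hw) ENNReal.ofReal_ne_top

lemma exists_sub {n : ℕ} (hn : n ≤ finrank ℝ V) : ∃ H : Submodule ℝ V, finrank ℝ H = n := by
  obtain ⟨f, hf⟩ := exists_linearIndependent_of_le_finrank hn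
  exact ⟨Submodule.span ℝ (Set.range f), by rw [finrank_span_eq_card hf]; simp⟩

end

lemma le_one {d k : ℕ} (hkd : k < d) {c : ℝ} (hc : IsLower d k c) : c ≤ 1 := by
  have hV : finrank ℝ (EuclideanSpace ℝ (Fin d)) = d := by simp
  obtain ⟨H, hH⟩ := exists_sub (V := EuclideanSpace ℝ (Fin d)) (n := k) (by rw [hV]; omega)
  refine upper hV (N := 1) (fun _ => tube H hH 1) ?_ zero_le_one ?_ hc
  · intro x hx
    refine mem_iUnion.2 ⟨0, ?_⟩
    rw [mem_tube]
    rw [mem_closedBall_zero_iff] at hx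
    exact ((Hᗮ).norm_orthogonalProjectionOnto_apply_le x).trans hx
  · simp only [Finset.univ_unique, Finset.sum_const, Finset.card_singleton, one_smul]
    rw [crv_tube hV hkd H hH zero_le_one]
    simp

/-- `c(d, 2) = 1` -/
theorem c_two {d : ℕ} (hd : 2 < d) : IsGreatest {c : ℝ | IsLower d 2 c} 1 := by
  constructor
  · have h := isLower_gamma (d := d) (k := 2) le_rfl hd
    have e : Real.Gamma (((d - 2 : ℕ) : ℝ) / 2 + 1) * Real.Gamma ((2 : ℕ) / 2 : ℝ) /
        Real.Gamma ((d : ℝ) / 2) = 1 := by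
      have h1 : (((d - 2 : ℕ) : ℝ)) / 2 + 1 = (d : ℝ) / 2 := by
        rw [Nat.cast_sub hd.le]
        push_cast
        ring
      have h2 : ((2 : ℕ) / 2 : ℝ) = 1 := by norm_num
      rw [h1, h2, Real.Gamma_one, mul_one]
      have hd0 : (0 : ℝ) < d := by exact_mod_cast (by omega : 0 < d)
      exact div_self (Real.Gamma_pos_of_pos (by positivity)).ne'
    rw [e] at h
    exact h
  · intro c hc
    exact le_one hd hc

end Pool.Agent.R357.CYL
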